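import Mathlib
import Pool.Agent.H921PC.Final

set_option autoImplicit false

namespace Pool.Agent.Results.MP_aa40d3_nt.FuchsianExponents

open Polynomial H921PC

/-- Second order Fuchsian operators over `ℚ` with rational local exponents, any number of singular
points and arbitrary accessory parameters. The operator
`L = D A ∂² + (∑ᵢ (D - rᵢ) qᵢ' ∏_{j ≠ i} qⱼ) ∂ + R`, `A = ∏ qᵢ` separable, has local exponents
`0, rᵢ / D` at the roots of `qᵢ` and `a / D, b / D` at infinity. If for one residue class `c`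
prime to `D` the sum of `deg qᵢ · ((-c rᵢ) mod D)` is smaller than
`(c a mod D) + (c b mod D)`, then for every large prime `p` with `p c ≡ 1 (mod D)` the reduction
of `L` modulo `p` does not have a full basis of rational solutions. There are infinitely many such
primes, so the open implication of Grothendieck's conjecture holds for `L`. -/
theorem result : ∀ (k D : ℕ) (q : Fin k → ℤ[X]) (r : Fin k → ℤ) (a b c : ℤ) (R : ℤ[X]),
    0 < D →
    ((∏ i, q i).map (Int.castRingHom ℚ)).Separable →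
    2 ≤ (∏ i, q i).natDegree →
    (∀ i, (D : ℤ) ∣ r i → 0 < r i) →
    a + b + ∑ i, r i * (q i).natDegree = D * ((∏ i, q i).natDegree - 1) →
    R.natDegree ≤ (∏ i, q i).natDegree - 2 →
    (D : ℤ) * R.coeff ((∏ i, q i).natDegree - 2) = a * b * (∏ i, q i).leadingCoeff →
    IsCoprime c (D : ℤ) →
    ∑ i, ((q i).natDegree : ℤ) * ((-(c * r i)) % D) < (c * a) % D + (c * b) % D →
    (∃ N : ℕ, ∀ p : ℕ, N < p → ∀ _hp : Fact p.Prime, (D : ℤ) ∣ p * c - 1 →
      ¬ FullModP (Lop D q r R) p) ∧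
    (∀ N : ℕ, ∃ p : ℕ, N < p ∧ p.Prime ∧ (D : ℤ) ∣ p * c - 1) ∧
    ((∃ N : ℕ, ∀ p : ℕ, N < p → ∀ _hp : Fact p.Prime, FullModP (Lop D q r R) p) →
      FullAlgebraic (Lop D q r R)) := by
  intro k D q r a b c R hD hsep hn hr hab hR hR' hc hlt
  have h1 := modP hD q r a b c R hsep hn hr hab hR hR' hlt
  have h2 := exists_primes hD hc
  refine ⟨h1, h2, ?_⟩
  rintro ⟨N, hN⟩
  obtain ⟨M, hM⟩ := h1
  obtain ⟨p, hp1, hp2, hp3⟩ := h2 (max N M)
  have hp : Fact p.Prime := ⟨hp2⟩
  exact absurd (hN p (lt_of_le_of_lt (le_max_left _ _) hp1) hp)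
    (hM p (lt_of_le_of_lt (le_max_right _ _) hp1) hp hp3)

end Pool.Agent.Results.MP_aa40d3_nt.FuchsianExponents
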